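import Pool.Agent.Q104.StarBound

/-!
# The maximum number of main vertices in a star set

`M(n) = max (1, n - 4)` for every `n ≥ 1`.
-/

set_option autoImplicit false

namespace Pool.Agent.Results.MP_bb681f_co.MaxMain

open Finset Q104.StarSet

/-- The numbers `|main(X)|`, where `X` is a `μ`-star set of a connected graph with `n` vertices for
which the real number `μ` is a main eigenvalue. -/
def Values (n : ℕ) : Set ℕ :=
  {m | ∃ (V : Type) (_ : Fintype V) (G : SimpleGraph V) (μ : ℝ) (X : Finset V),
    Fintype.card V = n ∧ G.Connected ∧ IsMain G μ ∧ IsStarSet G μ X ∧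
      m = (mainVertices G μ X).card}

open scoped Classical in
/-- the upper bound -/
theorem upper (n m : ℕ) (hm : m ∈ Values n) : m ≤ max 1 (n - 4) := by
  obtain ⟨V, hV, G, μ, X, hn, hG, -, hX, rfl⟩ := hm
  by_cases h1 : (mainVertices G μ X).card ≤ 1
  · exact h1.trans (le_max_left _ _)
  · push Not at h1
    obtain ⟨u, hu, v, hv, huv⟩ := Finset.one_lt_card.mp h1
    have hmem : ∀ w, w ∈ mainVertices G μ X → w ∈ X ∧
        ∃ x : V → ℝ, (∀ i, ∑ j, (if G.Adj i j then x j else 0) = μ * x i) ∧ x w = 1 ∧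
          (∀ v ∈ X, v ≠ w → x v = 0) ∧ ∑ i, x i ≠ 0 := by
      intro w hw
      unfold mainVertices at hw
      rw [Finset.mem_filter] at hw
      obtain ⟨hwX, hwm⟩ := hw
      obtain ⟨x, h1, h2, h3⟩ := exists_ker hX w hwX
      exact ⟨hwX, x, h1, h2, h3, main_sum hX w _ (fun _ => Iff.rfl) hwm x h1 h2 h3⟩
    obtain ⟨huX, x, x1, x2, x3, x4⟩ := hmem u hu
    obtain ⟨hvX, y, y1, y2, y3, y4⟩ := hmem v hv
    have h4 := four_le hG hX u v huX hvX huv x y x1 x2 x3 x4 y1 y2 y3 y4
    have h5 : (mainVertices G μ X).card ≤ X.card := by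
      apply Finset.card_le_card
      intro w hw
      exact (hmem w hw).1
    have h6 := Finset.card_add_card_compl X
    exact (show (mainVertices G μ X).card ≤ n - 4 by omega).trans (le_max_right _ _)

/-! ### Complete graphs -/

section

open scoped Classical

variable {V : Type} [Fintype V]

theorem key (x : V → ℝ) (i : V) :
    ∑ j, @ite ℝ ((⊤ : SimpleGraph V).Adj i j) (Classical.propDecidable _) (x j) 0
      = ∑ j, x j - x i := by
  rw [eq_sub_iff_add_eq, ← Finset.sum_erase_add _ _ (Finset.mem_univ i)]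
  rw [← Finset.sum_erase_add (Finset.univ) x (Finset.mem_univ i)]
  rw [if_neg (SimpleGraph.irrefl _), add_zero]
  congr 1
  refine Finset.sum_congr rfl fun j hj => ?_
  rw [if_pos]
  exact fun h => (Finset.mem_erase.mp hj).1 h.symm

theorem complete_aux (n : ℕ) (hn : Fintype.card V = n) (a : V) :
    IsMain (⊤ : SimpleGraph V) ((n : ℝ) - 1) ∧ IsStarSet (⊤ : SimpleGraph V) ((n : ℝ) - 1) {a} ∧
      mainVertices (⊤ : SimpleGraph V) ((n : ℝ) - 1) {a} = {a} := by
  have hpos : 0 < n := by
    rw [← hn]
    exact Fintype.card_pos_iff.mpr ⟨a⟩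
  have hn0 : (n : ℝ) ≠ 0 := by
    have : (0 : ℝ) < n := by exact_mod_cast hpos
    exact this.ne'
  have hsum1 : ∑ _j : V, (1 : ℝ) = n := by
    rw [Finset.sum_const, Finset.card_univ, hn, nsmul_eq_mul, mul_one]
  have hone : (fun _ => (1 : ℝ)) ∈ E (⊤ : SimpleGraph V) ((n : ℝ) - 1) := by
    rw [mem_E]
    intro i
    rw [key, hsum1]
    ring
  have hE : E (⊤ : SimpleGraph V) ((n : ℝ) - 1) = Submodule.span ℝ {fun _ => (1 : ℝ)} := by
    apply le_antisymm
    · intro x hx
      rw [mem_E] at hx
      rw [Submodule.mem_span_singleton]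
      refine ⟨(∑ j, x j) / n, ?_⟩
      funext i
      have h2 := hx i
      rw [key] at h2
      simp only [Pi.smul_apply, smul_eq_mul, mul_one]
      rw [div_eq_iff hn0]
      linarith
    · rw [Submodule.span_singleton_le_iff_mem]
      exact hone
  refine ⟨⟨_, hone, ?_⟩, ⟨?_, ?_⟩, ?_⟩
  · rw [hsum1]; exact hn0
  · rw [hE, finrank_span_singleton, Finset.card_singleton]
    intro h
    have := congrFun h a
    simp at this
  · refine bot_of _ ?_
    intro w hw0 hw
    have hwa : w a = 0 := hw0 a (by simp)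
    have h1 : ∀ i, i ≠ a → ∑ j, w j = n * w i := by
      intro i hi
      have := hw i (by simpa using hi)
      rw [key] at this
      linarith
    have h2 : ∑ j, w j = ∑ j ∈ Finset.univ.erase a, w j := by
      rw [← Finset.sum_erase_add _ _ (Finset.mem_univ a), hwa, add_zero]
    have h3 : (n : ℝ) * ∑ j, w j = ((n : ℝ) - 1) * ∑ j, w j := by
      conv_lhs => rw [h2]
      rw [Finset.mul_sum, Finset.sum_congr rfl fun j hj => (h1 j (Finset.mem_erase.mp hj).1).symm,
        Finset.sum_const, Finset.card_erase_of_mem (Finset.mem_univ a), Finset.card_univ, hn,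
        nsmul_eq_mul, Nat.cast_sub hpos, Nat.cast_one]
    have h4 : ∑ j, w j = 0 := by linarith
    intro i
    by_cases hi : i = a
    · rw [hi, hwa]
    · have := h1 i hi
      rw [h4] at this
      exact (mul_eq_zero.mp this.symm).resolve_left hn0
  · unfold mainVertices
    rw [Finset.filter_true_of_mem]
    intro v hv
    rw [Finset.mem_singleton] at hv
    subst hv
    have hu : ∀ i : V, i ∈ {w : V | w ∉ ({v} : Finset V) ∨ w = v} := by
      intro i
      by_cases h : i = v
      · exact Or.inr h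
      · exact Or.inl (by simpa using h)
    refine isMain_of _ (fun _ => 1) (fun v hv => absurd (hu v) hv) ?_ ?_
    · intro i _
      rw [key, hsum1]
      ring
    · rw [hsum1]; exact hn0

/-! ### Brooms -/

/-- The path `0 - 1 - 2 - 3` on `Fin 4` with `k` further vertices, all adjacent to `3`. -/
def broom (k : ℕ) : SimpleGraph (Fin 4 ⊕ Fin k) where
  Adj x y := match x, y with
    | Sum.inl a, Sum.inl b => a.val + 1 = b.val ∨ b.val + 1 = a.val
    | Sum.inl a, Sum.inr _ => a = 3
    | Sum.inr _, Sum.inl b => b = 3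
    | Sum.inr _, Sum.inr _ => False
  symm := ⟨by
    rintro (a | a) (b | b) h
    · exact h.symm
    · exact h
    · exact h
    · exact h⟩
  loopless := ⟨by
    rintro (a | a) h
    · simp at h
    · exact h⟩

theorem adj_ll {k : ℕ} (a b : Fin 4) : (broom k).Adj (Sum.inl a) (Sum.inl b) ↔
    (a.val + 1 = b.val ∨ b.val + 1 = a.val) := Iff.rfl
theorem adj_lr {k : ℕ} (a : Fin 4) (b : Fin k) :
    (broom k).Adj (Sum.inl a) (Sum.inr b) ↔ a = 3 := Iff.rfl
theorem adj_rl {k : ℕ} (a : Fin k) (b : Fin 4) :
    (broom k).Adj (Sum.inr a) (Sum.inl b) ↔ b = 3 := Iff.rfl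
theorem adj_rr {k : ℕ} (a b : Fin k) :
    (broom k).Adj (Sum.inr a) (Sum.inr b) ↔ False := Iff.rfl

theorem broom_connected (k : ℕ) : (broom k).Connected := by
  have h01 : (broom k).Adj (Sum.inl 0) (Sum.inl 1) := by rw [adj_ll]; decide
  have h12 : (broom k).Adj (Sum.inl 1) (Sum.inl 2) := by rw [adj_ll]; decide
  have h23 : (broom k).Adj (Sum.inl 2) (Sum.inl 3) := by rw [adj_ll]; decide
  have h3 : ∀ x, (broom k).Reachable x (Sum.inl 3) := by
    rintro (a | b)
    · fin_cases a
      · exact (h01.reachable.trans h12.reachable).trans h23.reachable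
      · exact h12.reachable.trans h23.reachable
      · exact h23.reachable
      · exact SimpleGraph.Reachable.refl _
    · have : (broom k).Adj (Sum.inr b) (Sum.inl 3) := by rw [adj_rl]
      exact this.reachable
  have : Nonempty (Fin 4 ⊕ Fin k) := ⟨Sum.inl 0⟩
  exact ⟨fun x y => (h3 x).trans (h3 y).symm⟩

/-- the neighbour sums -/
theorem nb0 {k : ℕ} (x : Fin 4 ⊕ Fin k → ℝ) :
    ∑ j, (if (broom k).Adj (Sum.inl 0) j then x j else 0) = x (Sum.inl 1) := by
  rw [Fintype.sum_sum_type, Fin.sum_univ_four]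
  simp [adj_ll, adj_lr]

theorem nb1 {k : ℕ} (x : Fin 4 ⊕ Fin k → ℝ) :
    ∑ j, (if (broom k).Adj (Sum.inl 1) j then x j else 0) = x (Sum.inl 0) + x (Sum.inl 2) := by
  rw [Fintype.sum_sum_type, Fin.sum_univ_four]
  simp [adj_ll, adj_lr]

theorem nb2 {k : ℕ} (x : Fin 4 ⊕ Fin k → ℝ) :
    ∑ j, (if (broom k).Adj (Sum.inl 2) j then x j else 0) = x (Sum.inl 1) + x (Sum.inl 3) := by
  rw [Fintype.sum_sum_type, Fin.sum_univ_four]
  simp [adj_ll, adj_lr]

theorem nb3 {k : ℕ} (x : Fin 4 ⊕ Fin k → ℝ) :
    ∑ j, (if (broom k).Adj (Sum.inl 3) j then x j else 0)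
      = x (Sum.inl 2) + ∑ b, x (Sum.inr b) := by
  rw [Fintype.sum_sum_type, Fin.sum_univ_four]
  simp [adj_ll, adj_lr]

theorem nbr {k : ℕ} (x : Fin 4 ⊕ Fin k → ℝ) (b : Fin k) :
    ∑ j, (if (broom k).Adj (Sum.inr b) j then x j else 0) = x (Sum.inl 3) := by
  rw [Fintype.sum_sum_type, Fin.sum_univ_four]
  simp [adj_rl, adj_rr]

/-- the pendant vertices -/
def pend (k : ℕ) : Finset (Fin 4 ⊕ Fin k) := Finset.univ.filter fun x => ∃ b, x = Sum.inr b

theorem mem_pend {k : ℕ} (b : Fin k) : Sum.inr b ∈ pend k := by simp [pend]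
theorem notMem_pend {k : ℕ} (a : Fin 4) : Sum.inl a ∉ pend k := by simp [pend]

theorem card_pend (k : ℕ) : (pend k).card = k := by
  have : pend k = Finset.univ.map ⟨Sum.inr, Sum.inr_injective⟩ := by
    ext x
    simp only [pend, Finset.mem_filter, Finset.mem_univ, true_and, Finset.mem_map,
      Function.Embedding.coeFn_mk]
    constructor
    · rintro ⟨b, rfl⟩; exact ⟨b, rfl⟩
    · rintro ⟨b, rfl⟩; exact ⟨b, rfl⟩
  rw [this, Finset.card_map, Finset.card_univ, Fintype.card_fin]

/-- the kernel vector with prescribed values on the pendant vertices -/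
def kv {k : ℕ} (y : Fin k → ℝ) : Fin 4 ⊕ Fin k → ℝ :=
  Sum.elim (fun a => if a = 0 then ∑ b, y b else if a = 2 then - ∑ b, y b else 0) y

theorem kv_mem {k : ℕ} (y : Fin k → ℝ) (i : Fin 4 ⊕ Fin k) :
    ∑ j, (if (broom k).Adj i j then kv y j else 0) = 0 * kv y i := by
  rw [zero_mul]
  rcases i with a | b
  · fin_cases a
    · exact (nb0 _).trans (by simp [kv])
    · exact (nb1 _).trans (by simp [kv])
    · exact (nb2 _).trans (by simp [kv])
    · exact (nb3 _).trans (by simp [kv])
  · exact (nbr _ b).trans (by simp [kv])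

theorem kv_sum {k : ℕ} (y : Fin k → ℝ) : ∑ i, kv y i = ∑ b, y b := by
  rw [Fintype.sum_sum_type, Fin.sum_univ_four]
  simp [kv]

theorem broom_bot (k : ℕ) {inst : Fintype {v | v ∉ pend k}} :
    E ((broom k).induce {v | v ∉ pend k}) 0 = ⊥ := by
  refine bot_of _ ?_
  intro w hw0 hw
  have hr : ∀ b, w (Sum.inr b) = 0 := fun b => hw0 _ (by simpa using mem_pend b)
  have h0 := hw (Sum.inl 0) (notMem_pend 0)
  have h1 := hw (Sum.inl 1) (notMem_pend 1)
  have h2 := hw (Sum.inl 2) (notMem_pend 2)
  have h3 := hw (Sum.inl 3) (notMem_pend 3)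
  rw [nb0] at h0
  rw [nb1] at h1
  rw [nb2] at h2
  rw [nb3, Finset.sum_congr rfl fun b _ => hr b, Finset.sum_const_zero] at h3
  rintro (a | b)
  · fin_cases a
    · change w (Sum.inl 0) = 0; linarith
    · change w (Sum.inl 1) = 0; linarith
    · change w (Sum.inl 2) = 0; linarith
    · change w (Sum.inl 3) = 0; linarith
  · exact hr b

theorem broom_values (k : ℕ) (hk : 1 ≤ k) : k ∈ Values (k + 4) := by
  refine ⟨Fin 4 ⊕ Fin k, inferInstance, broom k, 0, pend k, ?_, broom_connected k, ?_, ⟨?_, ?_⟩, ?_⟩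
  · simp; ring
  · refine ⟨kv fun _ => 1, mem_E.mpr (kv_mem _), ?_⟩
    rw [kv_sum, Finset.sum_const, Finset.card_univ, Fintype.card_fin, nsmul_eq_mul, mul_one]
    have : (0 : ℝ) < k := by exact_mod_cast hk
    exact this.ne'
  · apply le_antisymm
    · let T : (Fin k → ℝ) →ₗ[ℝ] E (broom k) 0 :=
        { toFun := fun y => ⟨kv y, mem_E.mpr (kv_mem y)⟩
          map_add' := fun y z => by
            apply Subtype.ext
            funext i
            rcases i with a | b
            · simp only [kv, Sum.elim_inl, Submodule.coe_add, Pi.add_apply, Finset.sum_add_distrib]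
              split_ifs <;> ring
            · rfl
          map_smul' := fun c y => by
            apply Subtype.ext
            funext i
            rcases i with a | b
            · simp only [kv, Sum.elim_inl, RingHom.id_apply, Submodule.coe_smul, Pi.smul_apply,
                smul_eq_mul, ← Finset.mul_sum]
              split_ifs <;> ring
            · rfl }
      have hinj : Function.Injective T := by
        intro y z h
        funext b
        exact congrFun (congrArg Subtype.val h) (Sum.inr b)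
      have := LinearMap.finrank_le_finrank_of_injective hinj
      rw [Module.finrank_fintype_fun_eq_card, Fintype.card_fin] at this
      rw [card_pend]
      exact this
    · exact finrank_le (broom_bot k (inst := inferInstance))
  · exact broom_bot k
  · have : mainVertices (broom k) 0 (pend k) = pend k := by
      unfold mainVertices
      rw [Finset.filter_true_of_mem]
      rintro (a | b) hv
      · exact absurd hv (notMem_pend a)
      · refine isMain_of _ (kv (Pi.single b 1)) ?_ (fun i _ => kv_mem _ i) ?_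
        · rintro (a | c) hc
          · exact absurd (Or.inl (notMem_pend a)) hc
          · have hcb : c ≠ b := fun h => hc (Or.inr (by rw [h]))
            simp [kv, hcb]
        · rw [kv_sum]
          simp
    rw [this, card_pend]

end

/-- **Answer to Q1.** For every `n ≥ 1`, the largest number of `μ`-main vertices in a `μ`-star set of
a connected graph with `n` vertices, over all its main eigenvalues `μ`, is `max (1, n - 4)`. -/
theorem result : ∀ n : ℕ, 1 ≤ n → IsGreatest (Values n) (max 1 (n - 4)) := by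
  intro n hn
  refine ⟨?_, fun m hm => upper n m hm⟩
  by_cases h : n ≤ 5
  · have h1 : max 1 (n - 4) = 1 := by omega
    rw [h1]
    have : NeZero n := ⟨by omega⟩
    obtain ⟨h2, h3, h4⟩ := complete_aux (V := Fin n) n (Fintype.card_fin n) 0
    refine ⟨Fin n, inferInstance, ⊤, (n : ℝ) - 1, {0}, Fintype.card_fin n,
      SimpleGraph.connected_top, h2, h3, ?_⟩
    rw [h4, Finset.card_singleton]
  · have h1 : max 1 (n - 4) = n - 4 := by omega
    rw [h1]
    have := broom_values (n - 4) (by omega)
    rwa [Nat.sub_add_cancel (by omega)] at this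

end Pool.Agent.Results.MP_bb681f_co.MaxMain
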